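import Pool.Agent.Helper6.NX.GoalsA

set_option autoImplicit false

namespace Pool.Agent.Helper46.NX

open Pool.Agent.Helper6.NX

section

open Classical in
lemma law_eq {Ω α : Type} [Fintype Ω] (P : Ω → ℝ) (X : Ω → α) (a : α) :
    law P X a = ∑ ω, if X ω = a then P ω else 0 := rfl

open Classical in
lemma ccp_eq {Ω β : Type} [Fintype Ω] (P : Ω → ℝ) (Y : Ω → β) (z : Ω × Ω) :
    ccp P Y z = if Y z.1 = Y z.2 then P z.1 * P z.2 / law P Y (Y z.1) else 0 := rfl

variable {Ω α α' β : Type} [Fintype Ω]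

lemma law_nonneg' (P : Ω → ℝ) (X : Ω → α) (hP : ∀ ω, 0 ≤ P ω) (a : α) : 0 ≤ law P X a := by
  classical
  rw [law_eq]
  refine Finset.sum_nonneg fun ω _ => ?_
  split_ifs
  · exact hP ω
  · exact le_refl _

lemma le_law (P : Ω → ℝ) (X : Ω → α) (hP : ∀ ω, 0 ≤ P ω) (ω : Ω) : P ω ≤ law P X (X ω) := by
  classical
  rw [law_eq]
  have := Finset.single_le_sum (f := fun ω' => if X ω' = X ω then P ω' else 0)
    (fun ω' _ => by
      show (0 : ℝ) ≤ if X ω' = X ω then P ω' else 0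
      split_ifs
      · exact hP ω'
      · exact le_refl _) (Finset.mem_univ ω)
  simpa using this

lemma marg (P : Ω → ℝ) (Y : Ω → β) (hP : ∀ ω, 0 ≤ P ω) (ω : Ω) :
    ∑ ω', ccp P Y (ω, ω') = P ω := by
  classical
  have h1 : ∀ ω', ccp P Y (ω, ω') =
      (P ω / law P Y (Y ω)) * (if Y ω' = Y ω then P ω' else 0) := by
    intro ω'
    rw [ccp_eq]
    by_cases h : Y ω = Y ω'
    · simp only [h, if_true]
      ring
    · have h' : ¬ Y ω' = Y ω := fun e => h e.symm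
      simp only [h, h', if_false, mul_zero]
  rw [Finset.sum_congr rfl fun ω' _ => h1 ω', ← Finset.mul_sum, ← law_eq]
  by_cases hL : law P Y (Y ω) = 0
  · have h2 := le_law P Y hP ω
    rw [hL] at h2
    have h3 : P ω = 0 := le_antisymm h2 (hP ω)
    rw [h3, hL]
    simp
  · field_simp

lemma ccp_symm (P : Ω → ℝ) (Y : Ω → β) (z : Ω × Ω) : ccp P Y (z.2, z.1) = ccp P Y z := by
  classical
  rw [ccp_eq, ccp_eq]
  by_cases h : Y z.1 = Y z.2
  · simp only [h, if_true]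
    rw [mul_comm]
  · have h' : ¬ Y z.2 = Y z.1 := fun e => h e.symm
    simp only [h, h', if_false]

lemma marg2 (P : Ω → ℝ) (Y : Ω → β) (hP : ∀ ω, 0 ≤ P ω) (ω : Ω) :
    ∑ ω', ccp P Y (ω', ω) = P ω := by
  rw [← marg P Y hP ω]
  exact Finset.sum_congr rfl fun ω' _ => ccp_symm P Y (ω, ω')

lemma ccp_nonneg (P : Ω → ℝ) (Y : Ω → β) (hP : ∀ ω, 0 ≤ P ω) (z : Ω × Ω) : 0 ≤ ccp P Y z := by
  classical
  rw [ccp_eq]
  split_ifs
  · exact div_nonneg (mul_nonneg (hP _) (hP _)) (law_nonneg' P Y hP _)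
  · exact le_refl _

lemma ccp_pos (P : Ω → ℝ) (Y : Ω → β) (hP : ∀ ω, 0 ≤ P ω) (z : Ω × Ω) (hz : 0 < ccp P Y z) :
    Y z.1 = Y z.2 ∧ 0 < P z.1 ∧ 0 < P z.2 := by
  classical
  rw [ccp_eq] at hz
  by_cases h : Y z.1 = Y z.2
  · rw [if_pos h] at hz
    refine ⟨h, ?_, ?_⟩
    · refine lt_of_le_of_ne (hP _) fun e => ?_
      rw [← e, zero_mul, zero_div] at hz
      exact lt_irrefl _ hz
    · refine lt_of_le_of_ne (hP _) fun e => ?_
      rw [← e, mul_zero, zero_div] at hz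
      exact lt_irrefl _ hz
  · rw [if_neg h] at hz
    exact absurd hz (lt_irrefl _)

lemma sum_fst (P : Ω → ℝ) (Y : Ω → β) (hP : ∀ ω, 0 ≤ P ω) (f : Ω → ℝ) :
    ∑ z, ccp P Y z * f z.1 = ∑ ω, P ω * f ω := by
  rw [Fintype.sum_prod_type]
  refine Finset.sum_congr rfl fun ω _ => ?_
  show ∑ y, ccp P Y (ω, y) * f ω = P ω * f ω
  rw [← Finset.sum_mul, marg P Y hP]

lemma sum_snd (P : Ω → ℝ) (Y : Ω → β) (hP : ∀ ω, 0 ≤ P ω) (f : Ω → ℝ) :
    ∑ z, ccp P Y z * f z.2 = ∑ ω, P ω * f ω := by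
  rw [Fintype.sum_prod_type_right]
  refine Finset.sum_congr rfl fun ω _ => ?_
  show ∑ x, ccp P Y (x, ω) * f ω = P ω * f ω
  rw [← Finset.sum_mul, marg2 P Y hP]

lemma law_joint (P : Ω → ℝ) (X : Ω → α) (X' : Ω → α') (Y : Ω → β) (a : α) (a' : α') (b : β) :
    law (ccp P Y) (fun z => ((X z.1, X' z.2), Y z.1)) ((a, a'), b) =
      law P (fun ω => (X ω, Y ω)) (a, b) * law P (fun ω => (X' ω, Y ω)) (a', b) /
        law P Y b := by
  classical
  rw [law_eq, law_eq P (fun ω => (X ω, Y ω)), law_eq P (fun ω => (X' ω, Y ω)),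
    Fintype.sum_prod_type, Finset.sum_mul, Finset.sum_div]
  refine Finset.sum_congr rfl fun ω _ => ?_
  rw [Finset.mul_sum, Finset.sum_div]
  refine Finset.sum_congr rfl fun ω' _ => ?_
  simp only [Prod.mk.injEq]
  by_cases h1 : X ω = a ∧ Y ω = b
  · obtain ⟨h1a, h1b⟩ := h1
    by_cases h2 : X' ω' = a' ∧ Y ω' = b
    · obtain ⟨h2a, h2b⟩ := h2
      rw [if_pos ⟨⟨h1a, h2a⟩, h1b⟩, if_pos ⟨h1a, h1b⟩, if_pos ⟨h2a, h2b⟩, ccp_eq]
      simp only [h1b, h2b, if_true]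
    · rw [if_neg h2, mul_zero, zero_div]
      by_cases h3 : X' ω' = a'
      · have h4 : ¬ Y ω' = b := fun e => h2 ⟨h3, e⟩
        rw [if_pos ⟨⟨h1a, h3⟩, h1b⟩, ccp_eq]
        have h5 : ¬ Y ω = Y ω' := fun e => h4 (by rw [← e, h1b])
        simp only [h5, if_false]
      · rw [if_neg]
        rintro ⟨⟨_, h⟩, _⟩
        exact h3 h
  · rw [if_neg h1, zero_mul, zero_div, if_neg]
    rintro ⟨⟨h, _⟩, h'⟩
    exact h1 ⟨h, h'⟩

lemma law_cond (P : Ω → ℝ) (Y : Ω → β) (hP : ∀ ω, 0 ≤ P ω) (b : β) :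
    law (ccp P Y) (fun z => Y z.1) b = law P Y b := by
  classical
  rw [law_eq, law_eq P Y, Fintype.sum_prod_type]
  refine Finset.sum_congr rfl fun ω _ => ?_
  by_cases h : Y ω = b
  · simp only [h, if_true]
    exact marg P Y hP ω
  · simp only [h, if_false, Finset.sum_const_zero]

end

theorem thmL8 : S_L8 := by
  intro Ω α α' β _ P X X' Y hP
  classical
  have hP0 := hP.1
  refine ⟨⟨ccp_nonneg P Y hP0, ?_⟩, ?_, ?_, ccp_symm P Y, fun z hz => (ccp_pos P Y hP0 z hz).1, ?_⟩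
  · rw [Fintype.sum_prod_type, ← hP.2]
    exact Finset.sum_congr rfl fun ω _ => marg P Y hP0 ω
  · funext ω
    rw [law_eq, Fintype.sum_prod_type]
    rw [Finset.sum_eq_single ω]
    · simp only [if_true]
      exact marg P Y hP0 ω
    · intro ω' _ hne
      simp only [hne, if_false, Finset.sum_const_zero]
    · intro h
      exact absurd (Finset.mem_univ ω) h
  · funext ω
    rw [law_eq, Fintype.sum_prod_type_right]
    rw [Finset.sum_eq_single ω]
    · simp only [if_true]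
      exact marg2 P Y hP0 ω
    · intro ω' _ hne
      simp only [hne, if_false, Finset.sum_const_zero]
    · intro h
      exact absurd (Finset.mem_univ ω) h
  · unfold cent ent
    have h1 : ∑ z, ccp P Y z * Real.log (law (ccp P Y) (fun z => ((X z.1, X' z.2), Y z.1))
        ((X z.1, X' z.2), Y z.1)) =
        ∑ z, ccp P Y z * Real.log (law P (fun ω => (X ω, Y ω)) (X z.1, Y z.1)) +
        ∑ z, ccp P Y z * Real.log (law P (fun ω => (X' ω, Y ω)) (X' z.2, Y z.2)) -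
        ∑ z, ccp P Y z * Real.log (law P Y (Y z.1)) := by
      rw [← Finset.sum_add_distrib, ← Finset.sum_sub_distrib]
      refine Finset.sum_congr rfl fun z _ => ?_
      rcases eq_or_lt_of_le (ccp_nonneg P Y hP0 z) with h0 | h0
      · rw [← h0]; ring
      · obtain ⟨hY, hp1, hp2⟩ := ccp_pos P Y hP0 z h0
        rw [law_joint, hY]
        have ha : 0 < law P (fun ω => (X ω, Y ω)) (X z.1, Y z.2) := by
          rw [← hY]
          exact lt_of_lt_of_le hp1 (le_law P (fun ω => (X ω, Y ω)) hP0 z.1)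
        have hb : 0 < law P (fun ω => (X' ω, Y ω)) (X' z.2, Y z.2) :=
          lt_of_lt_of_le hp2 (le_law P (fun ω => (X' ω, Y ω)) hP0 z.2)
        have hc : 0 < law P Y (Y z.2) := lt_of_lt_of_le hp2 (le_law P Y hP0 z.2)
        rw [Real.log_div (mul_pos ha hb).ne' hc.ne', Real.log_mul ha.ne' hb.ne']
        ring
    have h2 : ∑ z, ccp P Y z * Real.log (law (ccp P Y) (fun z => Y z.1) (Y z.1)) =
        ∑ z, ccp P Y z * Real.log (law P Y (Y z.1)) := by
      refine Finset.sum_congr rfl fun z _ => ?_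
      rw [law_cond P Y hP0]
    rw [h1, h2, sum_fst P Y hP0 (fun ω => Real.log (law P (fun ω => (X ω, Y ω)) (X ω, Y ω))),
      sum_snd P Y hP0 (fun ω => Real.log (law P (fun ω => (X' ω, Y ω)) (X' ω, Y ω))),
      sum_fst P Y hP0 (fun ω => Real.log (law P Y (Y ω)))]
    ring

end Pool.Agent.Helper46.NX
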